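import Pool.Agent.Lib.MP_09a217_co.helper79.Step

set_option autoImplicit false

/-! Maiorana-McFarland functions and the two counting steps. -/

namespace Pool.Agent.Lib.MP09a217.LB

open Finset

/-- Character sum. -/
lemma char_sum (k : ℕ) (z : Fin k → ZMod 2) :
    ∑ x : Fin k → ZMod 2, sg (∑ i, x i * z i) = if z = 0 then (2 : ℤ) ^ k else 0 := by
  have h1 : ∀ x : Fin k → ZMod 2, sg (∑ i, x i * z i) = ∏ i, sg (x i * z i) := by
    intro x
    have : ∀ s : Finset (Fin k), sg (∑ i ∈ s, x i * z i) = ∏ i ∈ s, sg (x i * z i) := by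
      intro s
      induction s using Finset.induction_on with
      | empty => simp [sg_zero]
      | insert a s ha ih => rw [Finset.sum_insert ha, Finset.prod_insert ha, sg_add, ih]
    exact this univ
  simp only [h1]
  have h2 := Finset.prod_univ_sum (fun _ : Fin k => (univ : Finset (ZMod 2)))
    (fun i t => sg (t * z i))
  rw [Fintype.piFinset_univ] at h2
  rw [← h2]
  have h3 : ∀ a : ZMod 2, ∑ t : ZMod 2, sg (t * a) = if a = 0 then 2 else 0 := by decide
  simp only [h3]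
  split_ifs with h
  · subst h
    simp
  · obtain ⟨i, hi⟩ : ∃ i, z i ≠ 0 := by
      by_contra hcon
      push Not at hcon
      exact h (funext hcon)
    exact Finset.prod_eq_zero (Finset.mem_univ i) (by simp [hi])

/-- The standard pairing on binary vectors. -/
def pV (k : ℕ) : Pairing (Fin k → ZMod 2) where
  c x y := sg (∑ i, x i * y i)
  symm := by
    intro x y
    congr 1
    exact Finset.sum_congr rfl fun i _ => mul_comm _ _
  orth := by
    intro u v
    have h1 : ∀ x : Fin k → ZMod 2, sg (∑ i, x i * u i) * sg (∑ i, x i * v i) =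
        sg (∑ i, x i * (u + v) i) := by
      intro x
      rw [← sg_add, ← Finset.sum_add_distrib]
      congr 1
      apply Finset.sum_congr rfl
      intro i _
      rw [Pi.add_apply]
      ring
    simp only [h1, char_sum]
    have h2 : u + v = 0 ↔ u = v := by
      constructor
      · intro h
        funext i
        have h3 := congrFun h i
        simp only [Pi.add_apply, Pi.zero_apply] at h3
        revert h3
        generalize u i = a, v i = b
        revert a b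
        decide
      · rintro rfl
        funext i
        exact add_self2 _
    have h3 : (Fintype.card (Fin k → ZMod 2) : ℤ) = 2 ^ k := by
      simp [ZMod.card]
    rw [h3]
    exact if_congr h2 rfl rfl

/-- Dot product. -/
def dot {k : ℕ} (x y : Fin k → ZMod 2) : ZMod 2 := ∑ i, x i * y i

lemma pV_c {k : ℕ} (x y : Fin k → ZMod 2) : (pV k).c x y = sg (dot x y) := rfl

lemma dot_comm {k : ℕ} (x y : Fin k → ZMod 2) : dot x y = dot y x :=
  Finset.sum_congr rfl fun _ _ => mul_comm _ _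

lemma dot_ext {k : ℕ} {x y : Fin k → ZMod 2} (h : ∀ z, dot z x = dot z y) : x = y := by
  funext i
  have h1 := h (Pi.single i 1)
  simpa [dot, Pi.single_apply] using h1

variable {k : ℕ}

/-- The group of pairs of binary vectors. -/
abbrev X0 (k : ℕ) := (Fin k → ZMod 2) × (Fin k → ZMod 2)

/-- Its pairing. -/
def p0 (k : ℕ) : Pairing (X0 k) := (pV k).prod (pV k)

/-- Functions affine in the first vector. -/
def mm (φ : (Fin k → ZMod 2) → (Fin k → ZMod 2)) (g : (Fin k → ZMod 2) → ZMod 2) :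
    X0 k → ZMod 2 := fun z => dot z.1 (φ z.2) + g z.2

/-- Functions affine in the second vector. -/
def mm' (φ : (Fin k → ZMod 2) → (Fin k → ZMod 2)) (g : (Fin k → ZMod 2) → ZMod 2) :
    X0 k → ZMod 2 := fun z => dot z.2 (φ z.1) + g z.1

lemma mm'_dual (σ : Equiv.Perm (Fin k → ZMod 2)) (h : (Fin k → ZMod 2) → ZMod 2) :
    IsDual (p0 k) (2 ^ k) (mm' σ h) (mm σ.symm (h ∘ σ.symm)) := by
  rintro ⟨u, v⟩
  rw [Fintype.sum_prod_type]
  have h1 : ∀ x, ∑ y, sg (mm' σ h (x, y)) * (p0 k).c (x, y) (u, v) =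
      sg (h x) * sg (dot x u) * if σ x = v then (2 : ℤ) ^ k else 0 := by
    intro x
    have h2 := (pV k).orth (σ x) v
    have h3 : (Fintype.card (Fin k → ZMod 2) : ℤ) = 2 ^ k := by
      simp [ZMod.card]
    rw [h3] at h2
    rw [← h2, Finset.mul_sum]
    apply Finset.sum_congr rfl
    intro y _
    simp only [mm', p0, Pairing.prod, pV_c, sg_add]
    ring
  simp only [h1]
  rw [Finset.sum_eq_single (σ.symm v)]
  · rw [Equiv.apply_symm_apply, if_pos rfl]
    simp only [mm, Function.comp, sg_add]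
    rw [dot_comm u]
    ring
  · intro b _ hb
    rw [if_neg, mul_zero]
    intro h
    apply hb
    rw [← h, Equiv.symm_apply_apply]
  · simp

/-- The Maiorana-McFarland functions. -/
def G0 (k : ℕ) : Finset (X0 k → ZMod 2) :=
  (univ : Finset (Equiv.Perm (Fin k → ZMod 2) × ((Fin k → ZMod 2) → ZMod 2))).image
    fun s => mm' s.1 s.2

lemma mem_G0 {f : X0 k → ZMod 2} : f ∈ G0 k ↔ ∃ (σ : Equiv.Perm (Fin k → ZMod 2)) (h : _),
    mm' σ h = f := by
  simp [G0]

lemma G0_card : (G0 k).card = (2 ^ k).factorial * 2 ^ 2 ^ k := by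
  rw [G0, Finset.card_image_of_injective, Finset.card_univ, Fintype.card_prod, Fintype.card_perm]
  · simp [ZMod.card]
  · rintro ⟨σ, h⟩ ⟨σ', h'⟩ he
    have h1 : h = h' := by
      funext x
      have := congrFun he (x, 0)
      simpa [mm', dot] using this
    subst h1
    have h2 : σ = σ' := by
      apply Equiv.ext
      intro x
      apply dot_ext
      intro z
      have := congrFun he (x, z)
      simpa [mm'] using this
    rw [h2]

lemma two_pow_sq (k : ℕ) : (2 : ℤ) ^ k * 2 ^ k = Fintype.card (X0 k) := by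
  rw [Fintype.card_prod]
  simp [ZMod.card]

lemma G0_bent {f : X0 k → ZMod 2} (hf : f ∈ G0 k) : ∃ g, IsDual (p0 k) (2 ^ k) f g := by
  obtain ⟨σ, h, rfl⟩ := mem_G0.mp hf
  exact ⟨_, mm'_dual σ h⟩

lemma G0_du {f : X0 k → ZMod 2} (hf : f ∈ G0 k) : ∃ φ g, du (p0 k) (2 ^ k) f = mm φ g := by
  obtain ⟨σ, h, rfl⟩ := mem_G0.mp hf
  refine ⟨σ.symm, h ∘ σ.symm, ?_⟩
  exact IsDual.unique (by positivity) (du_spec ⟨_, mm'_dual σ h⟩) (mm'_dual σ h)

lemma G0_add_one {f : X0 k → ZMod 2} (hf : f ∈ G0 k) : f + 1 ∈ G0 k := by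
  obtain ⟨σ, h, rfl⟩ := mem_G0.mp hf
  rw [mem_G0]
  refine ⟨σ, h + 1, ?_⟩
  funext z
  simp only [mm', Pi.add_apply, Pi.one_apply]
  ring

/-- All functions affine in the second vector. -/
def D0 (k : ℕ) : Finset (X0 k → ZMod 2) :=
  (univ : Finset (((Fin k → ZMod 2) → (Fin k → ZMod 2)) × ((Fin k → ZMod 2) → ZMod 2))).image
    fun s => mm' s.1 s.2

lemma dot_add {x y z : Fin k → ZMod 2} : dot x (y + z) = dot x y + dot x z := by
  simp only [dot, Pi.add_apply, mul_add, Finset.sum_add_distrib]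

lemma G0_add {f g : X0 k → ZMod 2} (hf : f ∈ G0 k) (hg : g ∈ G0 k) : f + g ∈ D0 k := by
  obtain ⟨σ, h, rfl⟩ := mem_G0.mp hf
  obtain ⟨σ', h', rfl⟩ := mem_G0.mp hg
  refine Finset.mem_image.mpr ⟨(fun x => σ x + σ' x, h + h'), Finset.mem_univ _, ?_⟩
  funext z
  simp only [mm', Pi.add_apply, dot_add]
  ring

lemma D0_card : (D0 k).card ≤ 2 ^ ((k + 1) * 2 ^ k) := by
  refine Finset.card_image_le.trans ?_
  rw [Finset.card_univ, Fintype.card_prod]
  simp only [Fintype.card_fun, ZMod.card, Fintype.card_fin]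
  rw [← pow_mul, ← pow_add]
  apply le_of_eq
  congr 1
  ring

/-- The first step. -/
noncomputable def F1 (k : ℕ) : Finset (X0 k × Q → ZMod 2) := step (p0 k) (2 ^ k) (G0 k)

lemma F1_count : (G0 k).card ^ 4 ≤ 2 ^ ((k + 1) * 2 ^ k) * (F1 k).card :=
  (step_count (by positivity) (two_pow_sq k) (fun _ hf => G0_bent hf)
    (fun _ hf => G0_add_one hf) (fun _ hf _ hg => G0_add hf hg)).trans
    (Nat.mul_le_mul_right _ D0_card)

/-- Families of functions affine in the first vector. -/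
def D1 (k : ℕ) : Finset (X0 k × Q → ZMod 2) :=
  (univ : Finset ((Q → (Fin k → ZMod 2) → (Fin k → ZMod 2)) ×
    (Q → (Fin k → ZMod 2) → ZMod 2))).image fun s z => mm (s.1 z.2) (s.2 z.2) z.1

lemma D1_card : (D1 k).card ≤ 2 ^ (4 * (k + 1) * 2 ^ k) := by
  refine Finset.card_image_le.trans ?_
  rw [Finset.card_univ, Fintype.card_prod]
  simp only [Fintype.card_fun, ZMod.card, Fintype.card_fin, Fintype.card_prod]
  rw [← pow_mul, ← pow_mul, ← pow_mul, ← pow_add]
  apply le_of_eq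
  congr 1
  ring

lemma F1_form {F : X0 k × Q → ZMod 2} (hF : F ∈ F1 k) :
    ∃ (φ : Q → (Fin k → ZMod 2) → (Fin k → ZMod 2)) (g : Q → (Fin k → ZMod 2) → ZMod 2),
      F = fun z => mm (φ z.2) (g z.2) z.1 := by
  obtain ⟨t, ht, rfl⟩ := Finset.mem_image.mp hF
  rw [mem_quads] at ht
  have h1 : ∀ q, ∃ φ g, du (p0 k) (2 ^ k) (fam t q) = mm φ g := fun q => G0_du (ht.1 q)
  choose φ g h using h1
  refine ⟨φ, g, ?_⟩
  funext z
  rw [← h z.2]
  rfl

lemma F1_add {F G : X0 k × Q → ZMod 2} (hF : F ∈ F1 k) (hG : G ∈ F1 k) : F + G ∈ D1 k := by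
  obtain ⟨φ, g, rfl⟩ := F1_form hF
  obtain ⟨φ', g', rfl⟩ := F1_form hG
  refine Finset.mem_image.mpr ⟨(φ + φ', g + g'), Finset.mem_univ _, ?_⟩
  funext z
  simp only [mm, Pi.add_apply, dot_add]
  ring

lemma F1_bent {F : X0 k × Q → ZMod 2} (hF : F ∈ F1 k) :
    ∃ g, IsDual ((p0 k).prod pQ) (2 ^ k * 2) F g :=
  step_bent (by positivity) (two_pow_sq k) (fun _ hf => G0_bent hf) hF

lemma F1_add_one {F : X0 k × Q → ZMod 2} (hF : F ∈ F1 k) : F + 1 ∈ F1 k :=
  step_add_one (by positivity) (two_pow_sq k) (fun _ hf => G0_bent hf)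
    (fun _ hf => G0_add_one hf) hF

lemma two_pow_sq1 (k : ℕ) : (2 : ℤ) ^ k * 2 * (2 ^ k * 2) = Fintype.card (X0 k × Q) := by
  rw [Fintype.card_prod, Nat.cast_mul, ← two_pow_sq]
  have : (Fintype.card Q : ℤ) = 4 := by decide
  rw [this]
  ring

/-- The second step. -/
noncomputable def F2 (k : ℕ) : Finset ((X0 k × Q) × Q → ZMod 2) :=
  step ((p0 k).prod pQ) (2 ^ k * 2) (F1 k)

lemma F2_count : (F1 k).card ^ 4 ≤ 2 ^ (4 * (k + 1) * 2 ^ k) * (F2 k).card :=
  (step_count (by positivity) (two_pow_sq1 k) (fun _ hf => F1_bent hf)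
    (fun _ hf => F1_add_one hf) (fun _ hf _ hg => F1_add hf hg)).trans
    (Nat.mul_le_mul_right _ D1_card)

lemma F2_bent {F : (X0 k × Q) × Q → ZMod 2} (hF : F ∈ F2 k) :
    ∃ g, IsDual (((p0 k).prod pQ).prod pQ) (2 ^ k * 2 * 2) F g :=
  step_bent (by positivity) (two_pow_sq1 k) (fun _ hf => F1_bent hf) hF

lemma count_arith (a n1 n2 k m : ℕ) (h1 : (a * 2 ^ m) ^ 4 ≤ 2 ^ ((k + 1) * m) * n1)
    (h2 : n1 ^ 4 ≤ 2 ^ (4 * (k + 1) * m) * n2) :
    a ^ 16 * 2 ^ (8 * m) ≤ 2 ^ (8 * k * m) * n2 := by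
  have e1 : (2 : ℕ) ^ (16 * m) = 2 ^ (8 * m) * 2 ^ (8 * m) := by rw [← pow_add]; congr 1; ring
  have e2 : (2 : ℕ) ^ (4 * (k + 1) * m) * 2 ^ (4 * (k + 1) * m) =
      2 ^ (8 * k * m) * 2 ^ (8 * m) := by
    rw [← pow_add, ← pow_add]; congr 1; ring
  have e3 : ((2 : ℕ) ^ ((k + 1) * m)) ^ 4 = 2 ^ (4 * (k + 1) * m) := by
    rw [← pow_mul]; congr 1; ring
  have e4 : ((2 : ℕ) ^ m) ^ 16 = 2 ^ (16 * m) := by rw [← pow_mul]; congr 1; ring
  have h3 : ((a * 2 ^ m) ^ 4) ^ 4 ≤ (2 ^ ((k + 1) * m) * n1) ^ 4 := Nat.pow_le_pow_left h1 4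
  rw [← pow_mul, mul_pow, mul_pow, show 4 * 4 = 16 from rfl, e4, e3, e1] at h3
  have h4 : 2 ^ (4 * (k + 1) * m) * n1 ^ 4 ≤
      2 ^ (4 * (k + 1) * m) * (2 ^ (4 * (k + 1) * m) * n2) := Nat.mul_le_mul_left _ h2
  rw [← mul_assoc (2 ^ (4 * (k + 1) * m)) (2 ^ (4 * (k + 1) * m)) n2, e2] at h4
  have h5 : (0 : ℕ) < 2 ^ (8 * m) := by positivity
  apply Nat.le_of_mul_le_mul_right _ h5
  calc a ^ 16 * 2 ^ (8 * m) * 2 ^ (8 * m) = a ^ 16 * (2 ^ (8 * m) * 2 ^ (8 * m)) := by
        rw [mul_assoc]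
    _ ≤ _ := h3
    _ ≤ _ := h4
    _ = 2 ^ (8 * k * m) * n2 * 2 ^ (8 * m) := by
        generalize (2 : ℕ) ^ (8 * k * m) = u
        generalize (2 : ℕ) ^ (8 * m) = v
        ring

/-- The counting bound. -/
theorem F2_card (k : ℕ) : (2 ^ k).factorial ^ 16 * 2 ^ (8 * 2 ^ k) ≤
    2 ^ (8 * k * 2 ^ k) * (F2 k).card := by
  have h1 := F1_count (k := k)
  rw [G0_card] at h1
  exact count_arith _ _ _ _ _ h1 F2_count

end Pool.Agent.Lib.MP09a217.LB
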