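import Mathlib

set_option autoImplicit false

/-! Sign pairings, dual Boolean functions and the concatenation of four bent functions. -/

namespace Pool.Agent.Lib.MP09a217.LB

open Finset

/-- Sign of an element of the field with two elements. -/
def sg (z : ZMod 2) : ℤ := (-1) ^ z.val

lemma sg_zero : sg 0 = 1 := by simp [sg]

lemma sg_add : ∀ a b : ZMod 2, sg (a + b) = sg a * sg b := by decide

lemma sg_mul_self : ∀ a : ZMod 2, sg a * sg a = 1 := by decide

lemma sg_inj : ∀ a b : ZMod 2, sg a = sg b → a = b := by decide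

lemma add_self2 : ∀ a : ZMod 2, a + a = 0 := by decide

/-- A symmetric perfect pairing with integer values. -/
structure Pairing (X : Type) [Fintype X] [DecidableEq X] where
  c : X → X → ℤ
  symm : ∀ x y, c x y = c y x
  orth : ∀ u v, ∑ x, c x u * c x v = if u = v then (Fintype.card X : ℤ) else 0

variable {X Y : Type} [Fintype X] [DecidableEq X] [Fintype Y] [DecidableEq Y]

/-- Product of pairings. -/
def Pairing.prod (p : Pairing X) (q : Pairing Y) : Pairing (X × Y) where
  c a b := p.c a.1 b.1 * q.c a.2 b.2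
  symm := by
    intro a b
    rw [p.symm, q.symm]
  orth := by
    intro u v
    have h : ∀ x y, p.c x u.1 * q.c y u.2 * (p.c x v.1 * q.c y v.2) =
        (p.c x u.1 * p.c x v.1) * (q.c y u.2 * q.c y v.2) := by
      intros
      ring
    rw [Fintype.sum_prod_type]
    simp only [h, ← Finset.mul_sum, ← Finset.sum_mul, p.orth, q.orth]
    rcases u with ⟨u1, u2⟩
    rcases v with ⟨v1, v2⟩
    by_cases h1 : u1 = v1
    · by_cases h2 : u2 = v2
      · simp [h1, h2, Fintype.card_prod]
      · simp [h1, h2]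
    · simp [h1]

/-- `g` is the dual of `f` with respect to the pairing `p`, with normalisation `N`. -/
def IsDual (p : Pairing X) (N : ℤ) (f g : X → ZMod 2) : Prop :=
  ∀ u, ∑ x, sg (f x) * p.c x u = N * sg (g u)

lemma IsDual.symm {p : Pairing X} {N : ℤ} (hN : N ≠ 0) (hc : N * N = Fintype.card X)
    {f g : X → ZMod 2} (h : IsDual p N f g) : IsDual p N g f := by
  intro v
  apply mul_left_cancel₀ hN
  have h1 : N * ∑ u, sg (g u) * p.c u v = ∑ u, (∑ x, sg (f x) * p.c x u) * p.c u v := by
    rw [Finset.mul_sum]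
    apply Finset.sum_congr rfl
    intro u _
    rw [h u]
    ring
  rw [h1]
  simp only [Finset.sum_mul]
  rw [Finset.sum_comm]
  have h2 : ∀ x, ∑ u, sg (f x) * p.c x u * p.c u v =
      sg (f x) * if x = v then (Fintype.card X : ℤ) else 0 := by
    intro x
    rw [← p.orth x v, Finset.mul_sum]
    apply Finset.sum_congr rfl
    intro u _
    rw [p.symm x u]
    ring
  simp only [h2]
  rw [Finset.sum_eq_single v]
  · rw [if_pos rfl, ← hc]
    ring
  · intro b _ hb
    rw [if_neg hb, mul_zero]
  · simp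

lemma IsDual.unique {p : Pairing X} {N : ℤ} (hN : N ≠ 0) {f g g' : X → ZMod 2}
    (h : IsDual p N f g) (h' : IsDual p N f g') : g = g' := by
  funext u
  apply sg_inj
  apply mul_left_cancel₀ hN
  rw [← h u, ← h' u]

/-- A dual of a bent function. -/
noncomputable def du (p : Pairing X) (N : ℤ) (f : X → ZMod 2) : X → ZMod 2 := by
  classical exact if h : ∃ g, IsDual p N f g then h.choose else 0

lemma du_spec {p : Pairing X} {N : ℤ} {f : X → ZMod 2} (h : ∃ g, IsDual p N f g) :
    IsDual p N f (du p N f) := by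
  rw [du, dif_pos h]
  exact h.choose_spec

lemma IsDual.add_one {p : Pairing X} {N : ℤ} {f g : X → ZMod 2}
    (h : IsDual p N f g) : IsDual p N (f + 1) (g + 1) := by
  intro u
  have h1 : ∀ a : ZMod 2, sg (a + 1) = - sg a := by decide
  have h2 := h u
  simp only [Pi.add_apply, Pi.one_apply, h1, neg_mul, Finset.sum_neg_distrib, mul_neg]
  rw [h2]

/-- The index group of order four. -/
abbrev Q := ZMod 2 × ZMod 2

lemma sumQ {M : Type*} [AddCommMonoid M] (F : Q → M) :
    ∑ q, F q = F (0, 0) + F (0, 1) + (F (1, 0) + F (1, 1)) := by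
  rw [Fintype.sum_prod_type]
  have h : ∀ G : ZMod 2 → M, ∑ x, G x = G 0 + G 1 := by
    intro G
    exact Fin.sum_univ_two G
  rw [h, h, h]

/-- The standard pairing on the group of order four. -/
def pQ : Pairing Q where
  c a b := sg (a.1 * b.1 + a.2 * b.2)
  symm := by
    intro a b
    rw [mul_comm a.1, mul_comm a.2]
  orth := by decide

/-- The family indexed by `Q` given by a quadruple. -/
def fam {H : Type*} (t : (H × H) × (H × H)) (q : Q) : H :=
  if q.1 = 0 then (if q.2 = 0 then t.1.1 else t.1.2) else (if q.2 = 0 then t.2.1 else t.2.2)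

lemma fam_inj {H : Type*} {t t' : (H × H) × (H × H)} (h : fam t = fam t') : t = t' := by
  have h1 := congrFun h (0, 0)
  have h2 := congrFun h (0, 1)
  have h3 := congrFun h (1, 0)
  have h4 := congrFun h (1, 1)
  simp [fam] at h1 h2 h3 h4
  rcases t with ⟨⟨a, b⟩, ⟨c, d⟩⟩
  rcases t' with ⟨⟨a', b'⟩, ⟨c', d'⟩⟩
  simp_all

lemma four_signs : ∀ a b c d : ZMod 2, a + b + (c + d) = 1 → ∀ w : Q, ∃ e : ZMod 2,
    sg a * pQ.c (0, 0) w + sg b * pQ.c (0, 1) w + (sg c * pQ.c (1, 0) w + sg d * pQ.c (1, 1) w) =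
      2 * sg e := by
  decide

/-- Concatenation of four bent functions whose duals add up to one. -/
lemma concat {p : Pairing X} {N : ℤ} {a b : Q → X → ZMod 2}
    (h : ∀ q, IsDual p N (a q) (b q)) (hs : ∀ u, ∑ q, b q u = 1) :
    ∃ d : X × Q → ZMod 2, IsDual (p.prod pQ) (N * 2) (fun z => a z.2 z.1) d := by
  have key : ∀ u w, ∃ e : ZMod 2, ∑ q, sg (b q u) * pQ.c q w = 2 * sg e := by
    intro u w
    have h1 := hs u
    rw [sumQ] at h1
    obtain ⟨e, he⟩ := four_signs _ _ _ _ h1 w
    refine ⟨e, ?_⟩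
    rw [sumQ]
    exact he
  choose e he using key
  refine ⟨fun z => e z.1 z.2, ?_⟩
  rintro ⟨u, w⟩
  rw [Fintype.sum_prod_type_right]
  simp only [Pairing.prod]
  have h2 : ∀ q, ∑ x, sg (a q x) * (p.c x u * pQ.c q w) = N * (sg (b q u) * pQ.c q w) := by
    intro q
    have h3 := h q u
    have h4 : ∑ x, sg (a q x) * (p.c x u * pQ.c q w) =
        (∑ x, sg (a q x) * p.c x u) * pQ.c q w := by
      rw [Finset.sum_mul]
      apply Finset.sum_congr rfl
      intro x _
      ring
    rw [h4, h3]
    ring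
  simp only [h2, ← Finset.mul_sum]
  rw [he u w]
  ring

end Pool.Agent.Lib.MP09a217.LB
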