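import Pool.Agent.Lib.MP_09a217_co.helper79.Pairing

set_option autoImplicit false

/-! The counting step: concatenations of four bent functions with duals in a given set. -/

namespace Pool.Agent.Lib.MP09a217.LB

open Finset

variable {X : Type} [Fintype X] [DecidableEq X]

/-- Quadruples of elements of `G` with sum one. -/
def quads (G : Finset (X → ZMod 2)) :
    Finset (((X → ZMod 2) × (X → ZMod 2)) × ((X → ZMod 2) × (X → ZMod 2))) :=
  ((G ×ˢ G) ×ˢ (G ×ˢ G)).filter fun t => t.1.1 + t.1.2 + (t.2.1 + t.2.2) = 1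

lemma mem_quads {G : Finset (X → ZMod 2)}
    {t : ((X → ZMod 2) × (X → ZMod 2)) × ((X → ZMod 2) × (X → ZMod 2))} :
    t ∈ quads G ↔ (∀ q, fam t q ∈ G) ∧ ∀ u, ∑ q, fam t q u = 1 := by
  rcases t with ⟨⟨a, b⟩, ⟨c, d⟩⟩
  have h1 : ∀ u, ∑ q, fam ((a, b), (c, d)) q u = a u + b u + (c u + d u) := by
    intro u
    rw [sumQ]
    simp [fam]
  have h2 : (∀ q, fam ((a, b), (c, d)) q ∈ G) ↔ (a ∈ G ∧ b ∈ G) ∧ (c ∈ G ∧ d ∈ G) := by
    constructor
    · intro h
      refine ⟨⟨?_, ?_⟩, ?_, ?_⟩
      · simpa [fam] using h (0, 0)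
      · simpa [fam] using h (0, 1)
      · simpa [fam] using h (1, 0)
      · simpa [fam] using h (1, 1)
    · rintro ⟨⟨ha, hb⟩, hc, hd⟩ q
      unfold fam
      split_ifs <;> assumption
  rw [h2]
  simp only [h1, quads, Finset.mem_filter, Finset.mem_product]
  refine and_congr_right ?_
  intro _
  exact funext_iff

/-- The number of quadruples with sum one, bounded below by the Cauchy-Schwarz inequality. -/
lemma quads_card {G D : Finset (X → ZMod 2)} (hG : ∀ f ∈ G, f + 1 ∈ G)
    (hD : ∀ f ∈ G, ∀ g ∈ G, f + g ∈ D) : G.card ^ 4 ≤ D.card * (quads G).card := by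
  set r : (X → ZMod 2) → ℕ := fun d => ((G ×ˢ G).filter fun s => s.1 + s.2 = d).card with hr
  have h1 : G.card ^ 2 = ∑ d ∈ D, r d := by
    rw [hr, ← Finset.card_eq_sum_card_fiberwise, Finset.card_product]
    · ring
    · intro s hs
      have := Finset.mem_product.mp (Finset.mem_coe.mp hs)
      exact hD _ this.1 _ this.2
  have h2 : ∑ d ∈ D, r d ^ 2 = (quads G).card := by
    have h3 : (quads G).card =
        (((G ×ˢ G) ×ˢ (G ×ˢ G)).filter fun t => t.1.1 + t.1.2 = t.2.1 + t.2.2).card := by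
      refine Finset.card_bij' (fun t _ => (t.1, (t.2.1, t.2.2 + 1)))
        (fun t _ => (t.1, (t.2.1, t.2.2 + 1))) ?_ ?_ ?_ ?_
      · rintro ⟨⟨a, b⟩, ⟨c, d⟩⟩ ht
        simp only [quads, Finset.mem_filter, Finset.mem_product] at ht ⊢
        refine ⟨⟨ht.1.1, ht.1.2.1, hG _ ht.1.2.2⟩, ?_⟩
        funext x
        have h := congrFun ht.2 x
        simp only [Pi.add_apply, Pi.one_apply] at h ⊢
        revert h
        generalize a x = a, b x = b, c x = c, d x = d
        revert a b c d
        decide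
      · rintro ⟨⟨a, b⟩, ⟨c, d⟩⟩ ht
        simp only [quads, Finset.mem_filter, Finset.mem_product] at ht ⊢
        refine ⟨⟨ht.1.1, ht.1.2.1, hG _ ht.1.2.2⟩, ?_⟩
        funext x
        have h := congrFun ht.2 x
        simp only [Pi.add_apply, Pi.one_apply] at h ⊢
        revert h
        generalize a x = a, b x = b, c x = c, d x = d
        revert a b c d
        decide
      · rintro ⟨⟨a, b⟩, ⟨c, d⟩⟩ _
        simp only [Prod.mk.injEq, true_and]
        funext x
        simp only [Pi.add_apply, Pi.one_apply]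
        generalize d x = d
        revert d
        decide
      · rintro ⟨⟨a, b⟩, ⟨c, d⟩⟩ _
        simp only [Prod.mk.injEq, true_and]
        funext x
        simp only [Pi.add_apply, Pi.one_apply]
        generalize d x = d
        revert d
        decide
    rw [h3, Finset.card_eq_sum_card_fiberwise (f := fun t => t.1.1 + t.1.2) (t := D)]
    · apply Finset.sum_congr rfl
      intro d _
      have h4 : ((((G ×ˢ G) ×ˢ (G ×ˢ G)).filter fun t =>
          t.1.1 + t.1.2 = t.2.1 + t.2.2).filter fun t => t.1.1 + t.1.2 = d) =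
          ((G ×ˢ G).filter fun s => s.1 + s.2 = d) ×ˢ
          ((G ×ˢ G).filter fun s => s.1 + s.2 = d) := by
        ext t
        simp only [Finset.mem_filter, Finset.mem_product]
        constructor
        · rintro ⟨⟨h5, h6⟩, h7⟩
          exact ⟨⟨h5.1, h7⟩, h5.2, h6 ▸ h7⟩
        · rintro ⟨⟨h5, h6⟩, h7, h8⟩
          exact ⟨⟨⟨h5, h7⟩, h6.trans h8.symm⟩, h6⟩
      rw [h4, Finset.card_product, hr]
      ring
    · intro s hs
      simp only [Finset.mem_coe, Finset.mem_filter, Finset.mem_product] at hs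
      exact hD _ hs.1.1.1 _ hs.1.1.2
  have h5 := sq_sum_le_card_mul_sum_sq (s := D) (f := r)
  rw [← h1, h2] at h5
  calc G.card ^ 4 = (G.card ^ 2) ^ 2 := by ring
    _ ≤ _ := h5

/-- The concatenation of the duals of a quadruple. -/
noncomputable def cc (p : Pairing X) (N : ℤ)
    (t : ((X → ZMod 2) × (X → ZMod 2)) × ((X → ZMod 2) × (X → ZMod 2))) : X × Q → ZMod 2 :=
  fun z => du p N (fam t z.2) z.1

/-- All concatenations of duals of quadruples from `G`. -/
noncomputable def step (p : Pairing X) (N : ℤ) (G : Finset (X → ZMod 2)) :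
    Finset (X × Q → ZMod 2) := (quads G).image (cc p N)

section

variable {p : Pairing X} {N : ℤ} (hN : N ≠ 0) (hc : N * N = Fintype.card X)

include hN hc

lemma du_dual {f : X → ZMod 2} (h : ∃ g, IsDual p N f g) : IsDual p N (du p N f) f :=
  (du_spec h).symm hN hc

lemma du_add_one {f : X → ZMod 2} (h : ∃ g, IsDual p N f g) :
    du p N (f + 1) = du p N f + 1 := by
  have h1 := (du_spec h).add_one
  have h2 := du_spec ⟨_, h1⟩
  exact IsDual.unique hN h2 h1

lemma step_bent {G : Finset (X → ZMod 2)} (hG : ∀ f ∈ G, ∃ g, IsDual p N f g)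
    {F : X × Q → ZMod 2} (hF : F ∈ step p N G) :
    ∃ g, IsDual (p.prod pQ) (N * 2) F g := by
  obtain ⟨t, ht, rfl⟩ := Finset.mem_image.mp hF
  rw [mem_quads] at ht
  obtain ⟨d, hd⟩ := concat (p := p) (N := N) (a := fun q => du p N (fam t q)) (b := fam t)
    (fun q => du_dual hN hc (hG _ (ht.1 q))) ht.2
  exact ⟨d, hd⟩

lemma step_card {G : Finset (X → ZMod 2)} (hG : ∀ f ∈ G, ∃ g, IsDual p N f g) :
    (step p N G).card = (quads G).card := by
  apply Finset.card_image_of_injOn
  intro t ht t' ht' h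
  rw [Finset.mem_coe, mem_quads] at ht ht'
  apply fam_inj
  funext q
  have h1 : du p N (fam t q) = du p N (fam t' q) := by
    funext x
    exact congrFun h (x, q)
  have h2 := du_dual hN hc (hG _ (ht.1 q))
  have h3 := du_dual hN hc (hG _ (ht'.1 q))
  rw [h1] at h2
  exact IsDual.unique hN h2 h3

lemma step_add_one {G : Finset (X → ZMod 2)} (hG : ∀ f ∈ G, ∃ g, IsDual p N f g)
    (hG1 : ∀ f ∈ G, f + 1 ∈ G) {F : X × Q → ZMod 2} (hF : F ∈ step p N G) :
    F + 1 ∈ step p N G := by
  obtain ⟨t, ht, rfl⟩ := Finset.mem_image.mp hF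
  rw [mem_quads] at ht
  refine Finset.mem_image.mpr ⟨((t.1.1 + 1, t.1.2 + 1), (t.2.1 + 1, t.2.2 + 1)), ?_, ?_⟩
  · have hf : ∀ q, fam ((t.1.1 + 1, t.1.2 + 1), (t.2.1 + 1, t.2.2 + 1)) q = fam t q + 1 := by
      intro q
      unfold fam
      split_ifs <;> rfl
    rw [mem_quads]
    constructor
    · intro q
      rw [hf]
      exact hG1 _ (ht.1 q)
    · intro u
      have h1 := ht.2 u
      simp only [hf, Pi.add_apply, Pi.one_apply, Finset.sum_add_distrib, h1]
      decide
  · funext z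
    have hf : fam ((t.1.1 + 1, t.1.2 + 1), (t.2.1 + 1, t.2.2 + 1)) z.2 = fam t z.2 + 1 := by
      unfold fam
      split_ifs <;> rfl
    unfold cc
    rw [hf, du_add_one hN hc (hG _ (ht.1 z.2))]
    rfl

/-- The counting step. -/
lemma step_count {G D : Finset (X → ZMod 2)} (hG : ∀ f ∈ G, ∃ g, IsDual p N f g)
    (hG1 : ∀ f ∈ G, f + 1 ∈ G) (hD : ∀ f ∈ G, ∀ g ∈ G, f + g ∈ D) :
    G.card ^ 4 ≤ D.card * (step p N G).card := by
  rw [step_card hN hc hG]
  exact quads_card hG1 hD

end

end Pool.Agent.Lib.MP09a217.LB
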