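import Pool.Agent.Lib.MP_09a217_co.helper79.MM

set_option autoImplicit false

/-! Passing from product index sets to binary vectors. -/

namespace Pool.Agent.Lib.MP09a217.LB

open Finset

variable {X Y : Type} [Fintype X] [DecidableEq X] [Fintype Y] [DecidableEq Y]

/-- The pairing `p` is the standard pairing on binary vectors of length `n`, up to a bijection. -/
def Compat (p : Pairing X) (n : ℕ) : Prop :=
  ∃ e : X ≃ (Fin n → ZMod 2), ∀ a b, p.c a b = sg (∑ i, e a i * e b i)

lemma compat_V (k : ℕ) : Compat (pV k) k := ⟨Equiv.refl _, fun _ _ => rfl⟩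

lemma compat_Q : Compat pQ 2 := by
  refine ⟨(finTwoArrowEquiv (ZMod 2)).symm, ?_⟩
  intro a b
  rw [Fin.sum_univ_two]
  rfl

lemma compat_prod {p : Pairing X} {q : Pairing Y} {m n : ℕ} (hp : Compat p m)
    (hq : Compat q n) : Compat (p.prod q) (m + n) := by
  obtain ⟨e, he⟩ := hp
  obtain ⟨f, hf⟩ := hq
  refine ⟨(Equiv.prodCongr e f).trans (Fin.appendEquiv m n), ?_⟩
  intro a b
  rw [Fin.sum_univ_add, sg_add]
  simp only [Pairing.prod, he, hf, Equiv.trans_apply, Equiv.prodCongr_apply, Prod.map,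
    Fin.appendEquiv, Equiv.coe_fn_mk, Fin.append_left, Fin.append_right]

lemma compat_F2 (k : ℕ) : Compat (((p0 k).prod pQ).prod pQ) (k + k + 2 + 2) :=
  compat_prod (compat_prod (compat_prod (compat_V k) (compat_V k)) compat_Q) compat_Q

lemma abs_sg : ∀ a : ZMod 2, |sg a| = 1 := by decide

/-- Bent functions for a pairing equivalent to the standard one give bent functions. -/
lemma transport {p : Pairing X} {n : ℕ} (hp : Compat p n) (N : ℕ) (F : Finset (X → ZMod 2))
    (hF : ∀ f ∈ F, ∃ g, IsDual p N f g) :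
    F.card ≤ {f : (Fin n → ZMod 2) → ZMod 2 | ∀ y : Fin n → ZMod 2,
      |∑ x : Fin n → ZMod 2, (-1 : ℤ) ^ ((∑ i, x i * y i) + f x).val| = N}.ncard := by
  classical
  obtain ⟨e, he⟩ := hp
  have hinj : Function.Injective (fun (f : X → ZMod 2) => f ∘ e.symm) := by
    intro f g h
    funext x
    have := congrFun h (e x)
    simpa using this
  rw [← Finset.card_image_of_injective F hinj, ← Set.ncard_coe_finset]
  apply Set.ncard_le_ncard _ (Set.toFinite _)
  intro f hf
  rw [Finset.mem_coe, Finset.mem_image] at hf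
  obtain ⟨g, hg, rfl⟩ := hf
  obtain ⟨d, hd⟩ := hF g hg
  intro y
  have h1 := hd (e.symm y)
  have h2 : ∑ x : Fin n → ZMod 2, (-1 : ℤ) ^ ((∑ i, x i * y i) + (g ∘ e.symm) x).val =
      ∑ x : X, sg (g x) * p.c x (e.symm y) := by
    rw [← Equiv.sum_comp e]
    apply Finset.sum_congr rfl
    intro x _
    have h3 : ∀ z : ZMod 2, (-1 : ℤ) ^ z.val = sg z := fun _ => rfl
    rw [h3, sg_add, he, Equiv.apply_symm_apply, Function.comp, Equiv.symm_apply_apply, mul_comm]
  rw [h2, h1, abs_mul, abs_sg, mul_one, Nat.abs_cast]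

lemma F2_le (k : ℕ) : (F2 k).card ≤
    {f : (Fin (k + k + 2 + 2) → ZMod 2) → ZMod 2 | ∀ y : Fin (k + k + 2 + 2) → ZMod 2,
      |∑ x : Fin (k + k + 2 + 2) → ZMod 2, (-1 : ℤ) ^ ((∑ i, x i * y i) + f x).val| =
        ((2 ^ k * 2 * 2 : ℕ) : ℤ)}.ncard := by
  apply transport (compat_F2 k)
  intro f hf
  have := F2_bent hf
  push_cast
  exact this

end Pool.Agent.Lib.MP09a217.LB
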